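import Mathlib
import Pool.Agent.H64.GenIdeal.Main

/-!
# Generic tuples do not generate the augmentation ideal of `ℓ¹(F_n)`
-/

namespace Pool.Agent.Results.MP_c3cf66_an.GenericTuples

open Pool.Agent.H64.AugIdeal Pool.Agent.H64.GenIdeal

/-- Let `n ≥ 2` and let `k` be arbitrary. The tuples `(x_1, …, x_k)` of elements of the
augmentation ideal `I_0(F_n)` for which `(y_1, …, y_k) ↦ x_1 y_1 + … + x_k y_k` is bounded below on
`ℓ¹(F_n)^k` form an open dense subset of `I_0(F_n)^k`, and none of them generates `I_0(F_n)` as a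
closed right ideal. -/
theorem result (n k : ℕ) (hn : 2 ≤ n) :
    IsOpen (belowSet n k) ∧ Dense (belowSet n k) ∧
      ∀ x ∈ belowSet n k, generated (fun i => (x i : L1 n)) ≠ I0 n :=
  ⟨isOpen_belowSet, dense_belowSet hn, fun x hx =>
    generated_ne (by omega) (fun i => (x i).2) hx⟩

end Pool.Agent.Results.MP_c3cf66_an.GenericTuples
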