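import Mathlib
import Pool.Agent.H64.CR.Final4

/-!
# Lower bounds for the approximation of the free generators by fewer than `n` elements
-/

namespace Pool.Agent.Results.MP_c3cf66_an.MomentBounds

open Pool.Agent.H64.AugIdeal Pool.Agent.H64.CR

/-- Let `k < n` and let `x_1, …, x_k` be arbitrary elements of the augmentation ideal `I_0(F_n)` of
`ℓ¹(F_n)`. For `y = (y_{ij})`, `i ≤ n`, `j ≤ k`, in `ℓ¹(F_n)` let
`E_i = δ_{a_i} - δ_e - ∑_j x_j * y_{ij}`, and let `|g|` be the word length.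

(1) If the `y_{ij}` have finite first moments, of sum `C` (for instance if they are in the group
ring), then `∑_i ∑_g |g|^{1/2} |E_i(g)| ≥ n - k` (if this is finite), and
`1 ≤ 70 √n (1 + C) (1 + ∑_j ‖x_j‖₁) ∑_i ‖E_i‖₁`.

(2) If the `x_j` have finite moment of order `1/2`, then `∑_i ∑_g |g|^{1/2} |E_i(g)| ≥ n - k` for all
`y_{ij}` in `ℓ¹(F_n)`, and `∑_i ‖E_i‖₁` is bounded below by a positive constant on every set of `y`
with `∑_{i,j} ‖y_{ij}‖₁` bounded.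

(3) If the `x_j` have finite second moment, then `∑_i ‖E_i‖₁ ≥ c (1 + S)^{-1/2}` for some `c > 0` and
all `y`, where `S = ∑_i ‖(y_{i1}, …, y_{ik})‖₂`; and if left convolution by the matrix of the Fox
derivatives of the `x_j` has closed range on `ℓ²`, then `∑_i ‖E_i‖₁ ≥ c` for some `c > 0` and all `y`,
and the closed right ideal of `I_0(F_n)` generated by the `x_j` is not `I_0(F_n)`. -/
theorem result (n k : ℕ) (hk : k < n) (x : Fin k → L1 n) (hx : ∀ j, x j ∈ I0 n) :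
    (∀ y : Fin n → Fin k → L1 n, (∀ i j, FirstMoment (y i j)) →
      ((∀ i, HalfMoment (err x (y i) i)) → (n : ℝ) - k ≤ ∑ i, half (err x (y i) i)) ∧
      1 ≤ 70 * √n * (1 + ∑ i, ∑ j, mom (y i j)) * (1 + ∑ j, ‖x j‖) * ∑ i, ‖err x (y i) i‖) ∧
    ((∀ j, HalfMoment (x j)) →
      (∀ y : Fin n → Fin k → L1 n, (∀ i, HalfMoment (err x (y i) i)) →
        (n : ℝ) - k ≤ ∑ i, half (err x (y i) i)) ∧
      ∀ S : ℝ, ∃ c : ℝ, 0 < c ∧ ∀ y : Fin n → Fin k → L1 n, ∑ i, ∑ j, ‖y i j‖ ≤ S →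
        c ≤ ∑ i, ‖err x (y i) i‖) ∧
    ((∀ j, SecondMoment (x j)) →
      (∃ c : ℝ, 0 < c ∧ ∀ y : Fin n → Fin k → L1 n,
        c ≤ √(1 + ∑ i, norm2 (y i)) * ∑ i, ‖err x (y i) i‖) ∧
      ∃ w : Fin n → Fin k → L1 n, IsFox x w ∧ (∀ w', IsFox x w' → w' = w) ∧ IsBoundedOp w ∧
        (HasClosedRange w →
          (∃ c : ℝ, 0 < c ∧ ∀ y : Fin n → Fin k → L1 n, c ≤ ∑ i, ‖err x (y i) i‖) ∧
          generated x ≠ I0 n)) :=
  ⟨fun y hy => ⟨bound_half_all x hx y hy, explicit_bound hk x hx y hy⟩,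
    fun hh => ⟨bound_half x hx hh, bounded_bound hk x hx hh⟩,
    fun h2 => ⟨second_bound hk x hx h2, gap_bound hk x hx h2⟩⟩

end Pool.Agent.Results.MP_c3cf66_an.MomentBounds
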