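import Pool.Agent.H37.C3.Free

/-!
# One element never generates the augmentation ideal of `ℓ¹(F_n)`, `n ≥ 2`

We prove that for `n ≥ 2` no single element of `I₀(F_n)` generates `I₀(F_n)` as a closed right
ideal (complex coefficients, arbitrary element of `ℓ¹`), i.e. the case `k ≤ 1` of Q1 for all `n`;
in particular Q1 holds for `n = 1` and `n = 2`. The bound is uniform in the generator.
-/

open ENNReal

namespace Pool.Agent.Results.MP_c3cf66_an.OneGenerator

/-- The free group `F_n`. -/
abbrev F (n : ℕ) : Type := FreeGroup (Fin n)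

/-- `ℓ¹(F_n)`: complex-valued absolutely summable functions on `F_n`, with the `ℓ¹`-norm. -/
abbrev L1 (n : ℕ) : Type := lp (fun _ : F n => ℂ) 1

/-- The convolution product of two functions: `(f * g)(u) = ∑_h f(h) g(h⁻¹ u)`. -/
noncomputable def conv {n : ℕ} (f g : F n → ℂ) (u : F n) : ℂ := ∑' h, f h * g (h⁻¹ * u)

variable {n : ℕ}

theorem summable_norm (f : L1 n) : Summable fun u => ‖f u‖ := by
  have := (lp.memℓp f).summable (by simp)
  simpa using this

theorem norm_eq (f : L1 n) : ‖f‖ = ∑' u, ‖f u‖ := by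
  rw [lp.norm_eq_tsum_rpow (by simp)]
  simp

theorem summable_pair (f g : L1 n) :
    Summable fun p : F n × F n => ‖f p.1 * g (p.1⁻¹ * p.2)‖ := by
  have h1 : Summable fun p : F n × F n => ‖f p.1‖ * ‖g p.2‖ :=
    (summable_norm f).mul_of_nonneg (summable_norm g) (fun _ => norm_nonneg _)
      (fun _ => norm_nonneg _)
  let e : F n × F n ≃ F n × F n :=
    Equiv.prodShear (Equiv.refl _) (fun h => Equiv.mulLeft h⁻¹)
  have h2 := e.summable_iff.2 h1
  refine h2.congr ?_
  rintro ⟨h, u⟩
  simp [e]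

theorem tsum_pair (f g : L1 n) :
    ∑' p : F n × F n, ‖f p.1 * g (p.1⁻¹ * p.2)‖ = ‖f‖ * ‖g‖ := by
  rw [(summable_pair f g).tsum_prod, norm_eq f, ← tsum_mul_right]
  refine tsum_congr fun h => ?_
  simp_rw [norm_mul]
  rw [tsum_mul_left, norm_eq g]
  congr 1
  exact (Equiv.mulLeft h⁻¹).tsum_eq (fun u => ‖g u‖)

theorem summable_swap (f g : L1 n) :
    Summable fun p : F n × F n => ‖f p.2 * g (p.2⁻¹ * p.1)‖ :=
  (Equiv.prodComm _ _).summable_iff.2 (summable_pair f g)

theorem summable_conv_term (f g : L1 n) (u : F n) :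
    Summable fun h => ‖f h * g (h⁻¹ * u)‖ :=
  (summable_swap f g).prod_factor u

theorem norm_conv_le (f g : L1 n) (u : F n) :
    ‖conv f g u‖ ≤ ∑' h, ‖f h * g (h⁻¹ * u)‖ :=
  norm_tsum_le_tsum_norm (summable_conv_term f g u)

theorem summable_outer (f g : L1 n) :
    Summable fun u => ∑' h, ‖f h * g (h⁻¹ * u)‖ :=
  (summable_swap f g).prod

theorem conv_mem (f g : L1 n) : Memℓp (conv (f : F n → ℂ) g) 1 := by
  refine memℓp_gen ?_
  simp only [ENNReal.toReal_one, Real.rpow_one]
  exact Summable.of_nonneg_of_le (fun _ => norm_nonneg _) (norm_conv_le f g) (summable_outer f g)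

/-- The convolution product on `ℓ¹(F_n)`. -/
noncomputable def mul (f g : L1 n) : L1 n := ⟨conv f g, conv_mem f g⟩

/-- The augmentation ideal `I₀(F_n) = {f ∈ ℓ¹(F_n) : ∑ f = 0}` (as a subspace). -/
noncomputable def I0 (n : ℕ) : Submodule ℂ (L1 n) where
  carrier := {f | ∑' g, f g = 0}
  add_mem' := by
    intro f g hf hg
    have h1 : Summable fun u => f u := (summable_norm f).of_norm
    have h2 : Summable fun u => g u := (summable_norm g).of_norm
    simp only [Set.mem_ofPred_eq] at hf hg ⊢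
    have : ∑' u, (f + g : L1 n) u = ∑' u, f u + ∑' u, g u := h1.tsum_add h2
    rw [this, hf, hg, add_zero]
  zero_mem' := by simp
  smul_mem' := by
    intro c f hf
    simp only [Set.mem_ofPred_eq] at hf ⊢
    have : ∑' u, (c • f : L1 n) u = c * ∑' u, f u := by
      rw [← tsum_mul_left]; rfl
    rw [this, hf, mul_zero]

/-- `J` is a closed right ideal of the Banach algebra `I₀(F_n)`. -/
structure IsClosedRightIdeal (J : Submodule ℂ (L1 n)) : Prop where
  le : J ≤ I0 n
  closed : IsClosed (J : Set (L1 n))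
  mul_mem : ∀ f ∈ J, ∀ g ∈ I0 n, mul f g ∈ J

/-- `J` is the closed right ideal of `I₀(F_n)` generated by `x_1, …, x_k`: the smallest closed
right ideal of `I₀(F_n)` containing all `x_i`. -/
def IsGeneratedBy {k : ℕ} (J : Submodule ℂ (L1 n)) (x : Fin k → L1 n) : Prop :=
  IsLeast {J' : Submodule ℂ (L1 n) | IsClosedRightIdeal J' ∧ ∀ i, x i ∈ J'} J

/-- The point mass at `g`. -/
noncomputable def δ (g : F n) : L1 n := lp.single 1 g 1

/-! ### Algebra of `ℓ¹(F_n)` -/

theorem mul_apply (f g : L1 n) (u : F n) : mul f g u = ∑' h, f h * g (h⁻¹ * u) := rfl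

theorem norm_mul_le' (f g : L1 n) : ‖mul f g‖ ≤ ‖f‖ * ‖g‖ := by
  rw [norm_eq, ← tsum_pair f g]
  have h1 : ∑' p : F n × F n, ‖f p.1 * g (p.1⁻¹ * p.2)‖ =
      ∑' u, ∑' h, ‖f h * g (h⁻¹ * u)‖ := by
    rw [← (summable_swap f g).tsum_prod]
    exact ((Equiv.prodComm (F n) (F n)).tsum_eq
      (fun p : F n × F n => ‖f p.1 * g (p.1⁻¹ * p.2)‖)).symm
  rw [h1]
  exact Summable.tsum_le_tsum (fun u => norm_conv_le f g u) (summable_norm (mul f g))
    (summable_outer f g)

theorem mul_add' (f g g' : L1 n) : mul f (g + g') = mul f g + mul f g' := by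
  ext u
  rw [lp.coeFn_add, Pi.add_apply, mul_apply, mul_apply, mul_apply,
    ← (summable_conv_term f g u).of_norm.tsum_add (summable_conv_term f g' u).of_norm]
  refine tsum_congr fun h => ?_
  rw [lp.coeFn_add, Pi.add_apply]
  ring

theorem add_mul' (f f' g : L1 n) : mul (f + f') g = mul f g + mul f' g := by
  ext u
  rw [lp.coeFn_add, Pi.add_apply, mul_apply, mul_apply, mul_apply,
    ← (summable_conv_term f g u).of_norm.tsum_add (summable_conv_term f' g u).of_norm]
  refine tsum_congr fun h => ?_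
  rw [lp.coeFn_add, Pi.add_apply]
  ring

theorem mul_smul' (c : ℂ) (f g : L1 n) : mul f (c • g) = c • mul f g := by
  ext u
  rw [lp.coeFn_smul, Pi.smul_apply, mul_apply, mul_apply, smul_eq_mul, ← tsum_mul_left]
  refine tsum_congr fun h => ?_
  rw [lp.coeFn_smul, Pi.smul_apply, smul_eq_mul]
  ring

theorem smul_mul' (c : ℂ) (f g : L1 n) : mul (c • f) g = c • mul f g := by
  ext u
  rw [lp.coeFn_smul, Pi.smul_apply, mul_apply, mul_apply, smul_eq_mul, ← tsum_mul_left]
  refine tsum_congr fun h => ?_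
  rw [lp.coeFn_smul, Pi.smul_apply, smul_eq_mul]
  ring

/-- Left multiplication as a continuous linear map. -/
noncomputable def mulL (f : L1 n) : L1 n →L[ℂ] L1 n :=
  LinearMap.mkContinuous
    { toFun := fun g => mul f g
      map_add' := mul_add' f
      map_smul' := fun c g => mul_smul' c f g } ‖f‖ (fun g => norm_mul_le' f g)

/-- Right multiplication as a continuous linear map. -/
noncomputable def mulR (g : L1 n) : L1 n →L[ℂ] L1 n :=
  LinearMap.mkContinuous
    { toFun := fun f => mul f g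
      map_add' := fun f f' => add_mul' f f' g
      map_smul' := fun c f => smul_mul' c f g } ‖g‖ (fun f => by
        simpa [mul_comm] using norm_mul_le' f g)

theorem mul_assoc' (f g k : L1 n) : mul (mul f g) k = mul f (mul g k) := by
  ext u
  rw [mul_apply, mul_apply]
  have h1 : ∀ v, mul f g v * k (v⁻¹ * u) = ∑' h, f h * g (h⁻¹ * v) * k (v⁻¹ * u) := by
    intro v
    rw [mul_apply, tsum_mul_right]
  have h2 : ∀ h, f h * mul g k (h⁻¹ * u) = ∑' v, f h * g (h⁻¹ * v) * k (v⁻¹ * u) := by
    intro h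
    rw [mul_apply, ← tsum_mul_left, ← (Equiv.mulLeft h⁻¹).tsum_eq]
    refine tsum_congr fun v => ?_
    simp only [Equiv.coe_mulLeft]
    rw [show (h⁻¹ * v)⁻¹ * (h⁻¹ * u) = v⁻¹ * u by group]
    ring
  simp_rw [h1, h2]
  refine Summable.tsum_comm ?_
  have h3 : Summable fun p : F n × F n => ‖f p.1 * g (p.1⁻¹ * p.2)‖ * ‖k‖ :=
    (summable_pair f g).mul_right _
  refine Summable.of_norm_bounded h3 ?_
  rintro ⟨h, v⟩
  simp only [Function.uncurry]
  rw [norm_mul]
  gcongr
  exact lp.norm_apply_le_norm (by simp) k _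

theorem mul_one' (f : L1 n) : mul f (δ 1) = f := by
  ext u
  rw [mul_apply, tsum_eq_single u]
  · simp [δ]
  · intro h hh
    have : h⁻¹ * u ≠ 1 := by
      intro h'
      apply hh
      rwa [inv_mul_eq_one] at h'
    rw [δ, lp.single_apply_ne _ _ _ this, mul_zero]

/-! ### Density of finitely supported functions -/

/-- The inclusion of finitely supported functions into `ℓ¹(F_n)`. -/
noncomputable def emb (x : F n →₀ ℂ) : L1 n := ∑ g ∈ x.support, lp.single 1 g (x g)

theorem emb_apply (x : F n →₀ ℂ) (u : F n) : emb x u = x u := by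
  classical
  rw [emb, lp.coeFn_sum, Finset.sum_apply, Finset.sum_eq_single u]
  · simp
  · intro g _ hg
    exact lp.single_apply_ne _ _ _ (Ne.symm hg)
  · intro hu
    simp [Finsupp.notMem_support_iff.1 hu]

theorem emb_sub (x y : F n →₀ ℂ) : emb (x - y) = emb x - emb y := by
  ext u
  rw [lp.coeFn_sub, Pi.sub_apply, emb_apply, emb_apply, emb_apply]
  rfl

theorem emb_single (g : F n) (c : ℂ) : emb (Finsupp.single g c) = lp.single 1 g c := by
  classical
  ext u
  rw [emb_apply]
  by_cases h : u = g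
  · subst h
    simp
  · rw [lp.single_apply_ne _ _ _ h, Finsupp.single_apply, if_neg (Ne.symm h)]

theorem denseRange_emb : DenseRange (emb : (F n →₀ ℂ) → L1 n) := by
  classical
  intro f
  have h := lp.hasSum_single (by simp) f
  refine mem_closure_of_tendsto h (Filter.Eventually.of_forall fun s => ?_)
  refine ⟨∑ g ∈ s, Finsupp.single g (f g), ?_⟩
  ext u
  rw [emb_apply, lp.coeFn_sum, Finset.sum_apply, Finsupp.finsetSum_apply]
  refine Finset.sum_congr rfl fun g _ => ?_
  by_cases h : u = g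
  · subst h
    simp
  · rw [lp.single_apply_ne _ _ _ h, Finsupp.single_apply, if_neg (Ne.symm h)]

theorem n1_eq (x : F n →₀ ℂ) : H37.C3.n1 x = ENNReal.ofReal ‖emb x‖ := by
  classical
  rw [norm_eq, tsum_eq_sum (s := x.support), H37.C3.n1, Finsupp.sum,
    ENNReal.ofReal_sum_of_nonneg (fun _ _ => norm_nonneg _)]
  · refine Finset.sum_congr rfl fun g _ => ?_
    rw [emb_apply, ofReal_norm]
  · intro g hg
    rw [emb_apply, Finsupp.notMem_support_iff.1 hg, norm_zero]

theorem emb_star (x y : F n →₀ ℂ) : emb (H37.C3.star x y) = mul (emb x) (emb y) := by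
  classical
  ext u
  rw [emb_apply, mul_apply, H37.C3.star, Finsupp.sum, Finsupp.finsetSum_apply,
    tsum_eq_sum (s := x.support)]
  · refine Finset.sum_congr rfl fun h _ => ?_
    rw [Finsupp.sum, Finsupp.finsetSum_apply, emb_apply, emb_apply]
    rw [Finset.sum_eq_single (h⁻¹ * u)]
    · simp
    · intro k _ hk
      rw [Finsupp.single_apply, if_neg]
      intro h'
      apply hk
      rw [← h']
      simp
    · intro h'
      rw [Finsupp.notMem_support_iff.1 h']
      simp
  · intro g hg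
    rw [emb_apply, Finsupp.notMem_support_iff.1 hg, zero_mul]

theorem emb_del (a : F n) : emb (H37.C3.del a) = δ a - δ 1 := by
  rw [H37.C3.del, emb_sub, emb_single, emb_single, δ, δ]

/-- The quantitative lower bound for finitely supported functions. -/
theorem quant_emb (i j : Fin n) (hij : i ≠ j) (x y y' : F n →₀ ℂ)
    (hx : x.sum (fun _ c => c) = 0) :
    1 / 2 ≤ ‖mul (emb x) (emb y) - (δ (FreeGroup.of i) - δ 1)‖ +
      ‖mul (emb x) (emb y') - (δ (FreeGroup.of j) - δ 1)‖ := by
  have h := H37.C3.free_core i j hij x y y' hx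
  rw [n1_eq, n1_eq, emb_sub, emb_sub, emb_star, emb_star, emb_del, emb_del,
    ← ENNReal.ofReal_add (norm_nonneg _) (norm_nonneg _),
    show (2 : ℝ≥0∞) = ENNReal.ofReal 2 by simp, ← ENNReal.ofReal_mul (by norm_num),
    ENNReal.one_le_ofReal] at h
  linarith

/-- The augmentation, as a continuous linear functional. -/
noncomputable def aug : L1 n →L[ℂ] ℂ := lp.tsumCLM ℂ (F n) ℂ

theorem aug_apply (f : L1 n) : aug f = ∑' g, f g := rfl

/-- The quantitative lower bound in general. -/
theorem quant (i j : Fin n) (hij : i ≠ j) (x : L1 n) (hx : x ∈ I0 n) (y y' : L1 n) :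
    1 / 2 ≤ ‖mul x y - (δ (FreeGroup.of i) - δ 1)‖ +
      ‖mul x y' - (δ (FreeGroup.of j) - δ 1)‖ := by
  classical
  -- for fixed finitely supported `X` of augmentation zero
  have h1 : ∀ X : F n →₀ ℂ, X.sum (fun _ c => c) = 0 → ∀ y y' : L1 n,
      1 / 2 ≤ ‖mul (emb X) y - (δ (FreeGroup.of i) - δ 1)‖ +
        ‖mul (emb X) y' - (δ (FreeGroup.of j) - δ 1)‖ := by
    intro X hX y y'
    refine DenseRange.induction_on₂
      (p := fun y y' : L1 n => 1 / 2 ≤ ‖mul (emb X) y - (δ (FreeGroup.of i) - δ 1)‖ +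
        ‖mul (emb X) y' - (δ (FreeGroup.of j) - δ 1)‖) denseRange_emb ?_ ?_ y y'
    · refine isClosed_le continuous_const ?_
      have c1 : Continuous fun q : L1 n × L1 n => mul (emb X) q.1 :=
        (mulL (emb X)).continuous.comp continuous_fst
      have c2 : Continuous fun q : L1 n × L1 n => mul (emb X) q.2 :=
        (mulL (emb X)).continuous.comp continuous_snd
      exact ((c1.sub continuous_const).norm).add ((c2.sub continuous_const).norm)
    · intro a b
      exact quant_emb i j hij X a b hX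
  -- approximate `x`
  have h2 : x ∈ closure (emb '' {X : F n →₀ ℂ | X.sum (fun _ c => c) = 0}) := by
    have hproj : Continuous fun z : L1 n => z - aug z • δ (1 : F n) := by fun_prop
    have hx0 : x - aug x • δ (1 : F n) = x := by
      have : aug x = 0 := hx
      rw [this]; simp
    rw [← hx0]
    refine map_mem_closure (f := fun z : L1 n => z - aug z • δ (1 : F n)) hproj
      (denseRange_emb x) ?_
    rintro _ ⟨X, rfl⟩
    refine ⟨X - Finsupp.single 1 (X.sum fun _ c => c), ?_, ?_⟩
    · rw [Set.mem_ofPred_eq, Finsupp.sum_sub_index (by intros; rfl)]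
      simp
    · have hX : aug (emb X) = X.sum fun _ c => c := by
        rw [aug_apply, tsum_eq_sum (s := X.support), Finsupp.sum]
        · exact Finset.sum_congr rfl fun g _ => emb_apply X g
        · intro g hg
          rw [emb_apply, Finsupp.notMem_support_iff.1 hg]
      rw [emb_sub, emb_single]
      simp only [hX]
      congr 1
      ext u
      rw [lp.coeFn_smul, Pi.smul_apply, δ]
      by_cases h : u = 1
      · subst h
        simp
      · rw [lp.single_apply_ne _ _ _ h, lp.single_apply_ne _ _ _ h, smul_zero]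
  have h3 : IsClosed {z : L1 n | 1 / 2 ≤ ‖mul z y - (δ (FreeGroup.of i) - δ 1)‖ +
      ‖mul z y' - (δ (FreeGroup.of j) - δ 1)‖} := by
    refine isClosed_le continuous_const ?_
    exact (((mulR y).continuous.sub continuous_const).norm).add
      (((mulR y').continuous.sub continuous_const).norm)
  have h4 := closure_minimal (s := emb '' {X : F n →₀ ℂ | X.sum (fun _ c => c) = 0}) (by
    rintro _ ⟨X, hX, rfl⟩
    exact h1 X hX y y') h3
  exact h4 h2

theorem δ_sub_mem (g : F n) : δ g - δ 1 ∈ I0 n := by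
  have h : aug (δ g - δ 1 : L1 n) = 0 := by
    rw [map_sub]
    have : ∀ g : F n, aug (δ g) = 1 := by
      intro g
      rw [aug_apply, tsum_eq_single g]
      · simp [δ]
      · intro u hu
        exact lp.single_apply_ne _ _ _ hu
    rw [this, this, sub_self]
  exact h

/-- The closure of `x * ℓ¹(F_n)`. -/
noncomputable def cl (x : L1 n) : Submodule ℂ (L1 n) :=
  (LinearMap.range (mulL x : L1 n →ₗ[ℂ] L1 n)).topologicalClosure

theorem mem_cl (x z : L1 n) : z ∈ cl x ↔ z ∈ closure (Set.range (mul x)) := by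
  have : (cl x : Set (L1 n)) = closure (Set.range (mul x)) := by
    rw [cl, Submodule.topologicalClosure_coe]
    rfl
  rw [← this]
  rfl

theorem I0_eq_ker : (I0 n : Set (L1 n)) = {f | aug f = 0} := rfl

theorem isClosed_I0 : IsClosed (I0 n : Set (L1 n)) := by
  rw [I0_eq_ker]
  exact isClosed_eq aug.continuous continuous_const

theorem aug_mul (f g : L1 n) : aug (mul f g) = aug f * aug g := by
  rw [aug_apply, aug_apply, aug_apply]
  have h1 : ∑' u, mul f g u = ∑' u, ∑' h, f h * g (h⁻¹ * u) := rfl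
  rw [h1]
  have h2 : Summable (Function.uncurry fun h u => f h * g (h⁻¹ * u)) :=
    (summable_pair f g).of_norm
  rw [h2.tsum_comm, ← tsum_mul_right]
  refine tsum_congr fun h => ?_
  rw [tsum_mul_left]
  congr 1
  exact (Equiv.mulLeft h⁻¹).tsum_eq (fun u => g u)

theorem isClosedRightIdeal_cl (x : L1 n) (hx : x ∈ I0 n) : IsClosedRightIdeal (cl x) where
  le := by
    intro z hz
    rw [mem_cl] at hz
    refine closure_minimal ?_ isClosed_I0 hz
    rintro _ ⟨y, rfl⟩
    have : aug (mul x y) = 0 := by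
      rw [aug_mul]
      have : aug x = 0 := hx
      rw [this, zero_mul]
    exact this
  closed := Submodule.isClosed_topologicalClosure _
  mul_mem := by
    intro f hf g _
    rw [mem_cl] at hf ⊢
    refine map_mem_closure (f := fun f => mul f g) (mulR g).continuous hf ?_
    rintro _ ⟨y, rfl⟩
    exact ⟨mul y g, (mul_assoc' x y g).symm⟩

/-- **Main theorem.** Let `k < n` and `k ≤ 1`, and let `J` be the closed right ideal of `I₀(F_n)`
generated by `k` elements of `ℓ¹(F_n)`. Then `J ≠ I₀(F_n)`; quantitatively, for any two different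
free generators `a_i`, `a_j` the distances of `δ_{a_i} - δ_e` and of `δ_{a_j} - δ_e` to `J` add up
to at least `1/2`. -/
theorem result (n k : ℕ) (hkn : k < n) (hk1 : k ≤ 1) (x : Fin k → L1 n)
    (J : Submodule ℂ (L1 n)) (hJ : IsGeneratedBy J x) :
    J ≠ I0 n ∧ ∀ i j : Fin n, i ≠ j → ∀ z ∈ J, ∀ z' ∈ J,
      1 / 2 ≤ ‖z - (δ (FreeGroup.of i) - δ 1)‖ + ‖z' - (δ (FreeGroup.of j) - δ 1)‖ := by
  obtain ⟨⟨hJ1, hxJ⟩, hmin⟩ := hJ
  -- in all cases `J` is contained in `cl x₀` for some `x₀ ∈ I₀`
  obtain ⟨x0, hx0, hle⟩ : ∃ x0 ∈ I0 n, J ≤ cl x0 := by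
    interval_cases k
    · refine ⟨0, (I0 n).zero_mem, hmin ⟨isClosedRightIdeal_cl 0 (I0 n).zero_mem, fun i => i.elim0⟩⟩
    · have h0 : x 0 ∈ I0 n := hJ1.le (hxJ 0)
      refine ⟨x 0, h0, hmin ⟨isClosedRightIdeal_cl (x 0) h0, fun i => ?_⟩⟩
      have : i = 0 := Subsingleton.elim _ _
      subst this
      rw [mem_cl]
      exact subset_closure ⟨δ 1, mul_one' _⟩
  -- the quantitative bound
  have hquant : ∀ i j : Fin n, i ≠ j → ∀ z ∈ J, ∀ z' ∈ J,
      1 / 2 ≤ ‖z - (δ (FreeGroup.of i) - δ 1)‖ + ‖z' - (δ (FreeGroup.of j) - δ 1)‖ := by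
    intro i j hij z hz z' hz'
    refine le_of_forall_pos_le_add fun ε hε => ?_
    have h1 := (mem_cl x0 z).1 (hle hz)
    have h2 := (mem_cl x0 z').1 (hle hz')
    rw [Metric.mem_closure_iff] at h1 h2
    obtain ⟨_, ⟨y, rfl⟩, hy⟩ := h1 (ε / 2) (by positivity)
    obtain ⟨_, ⟨y', rfl⟩, hy'⟩ := h2 (ε / 2) (by positivity)
    have h3 := quant i j hij x0 hx0 y y'
    rw [dist_comm, dist_eq_norm] at hy hy'
    have t1 : ‖mul x0 y - (δ (FreeGroup.of i) - δ 1)‖ ≤
        ‖mul x0 y - z‖ + ‖z - (δ (FreeGroup.of i) - δ 1)‖ := norm_sub_le_norm_sub_add_norm_sub _ _ _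
    have t2 : ‖mul x0 y' - (δ (FreeGroup.of j) - δ 1)‖ ≤
        ‖mul x0 y' - z'‖ + ‖z' - (δ (FreeGroup.of j) - δ 1)‖ :=
      norm_sub_le_norm_sub_add_norm_sub _ _ _
    linarith
  refine ⟨fun hJI => ?_, hquant⟩
  obtain ⟨i, j, hij⟩ | hn : (∃ i j : Fin n, i ≠ j) ∨ n = 1 := by
    rcases Nat.lt_or_ge 1 n with h | h
    · exact Or.inl ⟨⟨0, by omega⟩, ⟨1, h⟩, by simp⟩
    · exact Or.inr (by omega)
  · have h1 := hquant i j hij _ (hJI ▸ δ_sub_mem (FreeGroup.of i)) _
      (hJI ▸ δ_sub_mem (FreeGroup.of j))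
    simp only [sub_self, norm_zero, add_zero] at h1
    norm_num at h1
  · -- `n = 1`, hence `k = 0` and `J = 0`
    subst hn
    have hk0 : k = 0 := by omega
    subst hk0
    have hbot : IsClosedRightIdeal (⊥ : Submodule ℂ (L1 1)) :=
      { le := bot_le
        closed := by simp
        mul_mem := by
          intro f hf g _
          rw [Submodule.mem_bot] at hf ⊢
          subst hf
          exact (mulR g).map_zero }
    have h2 : J ≤ ⊥ := hmin ⟨hbot, fun i => i.elim0⟩
    have h3 : δ (FreeGroup.of (0 : Fin 1)) - δ 1 ∈ J := hJI ▸ δ_sub_mem _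
    have h4 : δ (FreeGroup.of (0 : Fin 1)) - δ 1 = 0 := h2 h3
    have h5 := congrArg (fun f : L1 1 => f 1) h4
    have h6 : (FreeGroup.of (0 : Fin 1)) ≠ 1 := FreeGroup.of_ne_one 0
    simp [δ] at h5

end Pool.Agent.Results.MP_c3cf66_an.OneGenerator
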