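import Mathlib
import Pool.Agent.H64.RatIdeal.Main

/-!
# Fewer than `n` rational elements do not generate the augmentation ideal of `ℓ¹(F_n)`
-/

namespace Pool.Agent.Results.MP_c3cf66_an.RationalGenerators

open Pool.Agent.H64.AugIdeal Pool.Agent.H64.RatIdeal

/-- If `k < n` and `x_1, …, x_k` are rational elements of the augmentation ideal `I_0(F_n)` of
`ℓ¹(F_n)`, then the closed right ideal of `I_0(F_n)` generated by them is not all of `I_0(F_n)`.
Elements with finite support are rational. -/
theorem result (n : ℕ) :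
    (∀ (k : ℕ) (_ : k < n) (x : Fin k → L1 n) (_ : ∀ i, x i ∈ I0 n) (_ : ∀ i, IsRational (x i)),
      generated x ≠ I0 n) ∧
    ∀ z : L1 n, {g : FreeGroup (Fin n) | z g ≠ 0}.Finite → IsRational z := by
  refine ⟨?_, fun z hz => isRational_of_finSupp hz⟩
  intro k hk x hx hr
  obtain ⟨φ, ⟨C, hC⟩, ⟨g, h, hgh⟩, hφ⟩ := exists_bounded_rational hk x hx hr
  intro heq
  have hle : generated x ≤ annih φ hC := by
    apply sInf_le
    refine ⟨isClosedRightIdeal_annih φ hC, fun i => ?_⟩
    rw [mem_annih]
    exact ⟨hx i, fun w => hφ i w⟩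
  rw [heq] at hle
  exact annih_ne hC hgh (le_antisymm (isClosedRightIdeal_annih φ hC).le hle)

end Pool.Agent.Results.MP_c3cf66_an.RationalGenerators
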